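import Mathlib

/-! Brauer configurations `a, a + d, a + 2 d, d` together with a dilate of them in one colour. -/

set_option autoImplicit false

namespace Pool.Agent.H165Z.Brauer

open Filter

theorem vdw (κ : Type) [Finite κ] (L : ℕ) : ∃ W : ℕ, ∀ χ : ℕ → κ, ∃ a d : ℕ, 0 < a ∧ 0 < d ∧
    a + L * d ≤ W ∧ ∀ j ≤ L, χ (a + j * d) = χ a := by
  classical
  obtain ⟨ι, _inst, hι⟩ := Combinatorics.Line.exists_mono_in_high_dimension (Fin (L + 1)) κ
  refine ⟨1 + Fintype.card ι * L, fun χ => ?_⟩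
  obtain ⟨l, c, hl⟩ := hι fun v => χ (1 + ∑ i, (v i : ℕ))
  set s : Finset ι := {i | l.idxFun i = none} with hs
  have key : ∀ x : Fin (L + 1), ∑ i, (l x i : ℕ) = ∑ i, (l 0 i : ℕ) + (x : ℕ) * s.card := by
    intro x
    have : (x : ℕ) * s.card = ∑ i, if l.idxFun i = none then (x : ℕ) else 0 := by
      rw [← Finset.sum_filter, Finset.sum_const, smul_eq_mul, mul_comm]
    rw [this, ← Finset.sum_add_distrib]
    refine Finset.sum_congr rfl fun i _ => ?_
    cases h : l.idxFun i with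
    | none => simp [h]
    | some y => simp [h]
  refine ⟨1 + ∑ i, (l 0 i : ℕ), s.card, by omega, Finset.card_pos.mpr ⟨l.proper.choose, ?_⟩, ?_, ?_⟩
  · rw [hs, Finset.mem_filter]
    exact ⟨Finset.mem_univ _, l.proper.choose_spec⟩
  · have h1 := key (Fin.last L)
    have h2 : ∑ i, (l (Fin.last L) i : ℕ) ≤ Fintype.card ι * L := by
      have : ∑ i, (l (Fin.last L) i : ℕ) ≤ ∑ _i : ι, L :=
        Finset.sum_le_sum fun i _ => Nat.lt_succ_iff.1 (l (Fin.last L) i).2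
      simpa using this
    simp only [Fin.val_last] at h1
    omega
  · intro j hj
    have h1 := key ⟨j, by omega⟩
    have h2 := hl ⟨j, by omega⟩
    have h3 := hl 0
    simp only at h1 h2 h3
    rw [add_assoc, ← h1, h2, h3]

theorem brauer_fin (κ : Type) [Finite κ] (s : Finset κ) : ∃ N : ℕ, ∀ χ : ℕ → κ,
    (∀ j, 0 < j → j ≤ N → χ j ∈ s) → ∃ a d : ℕ, 0 < a ∧ 0 < d ∧ a + 2 * d ≤ N ∧
      χ (a + d) = χ a ∧ χ (a + 2 * d) = χ a ∧ χ d = χ a := by
  classical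
  induction s using Finset.strongInduction with
  | H s ih =>
    have hN : ∃ N : ℕ, ∀ c ∈ s, ∀ χ : ℕ → κ,
        (∀ j, 0 < j → j ≤ N → χ j ∈ s.erase c) → ∃ a d : ℕ, 0 < a ∧ 0 < d ∧ a + 2 * d ≤ N ∧
          χ (a + d) = χ a ∧ χ (a + 2 * d) = χ a ∧ χ d = χ a := by
      have h1 : ∀ c : s, ∃ N : ℕ, ∀ χ : ℕ → κ,
          (∀ j, 0 < j → j ≤ N → χ j ∈ s.erase c) → ∃ a d : ℕ, 0 < a ∧ 0 < d ∧ a + 2 * d ≤ N ∧
            χ (a + d) = χ a ∧ χ (a + 2 * d) = χ a ∧ χ d = χ a :=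
        fun c => ih _ (Finset.erase_ssubset c.2)
      choose N hN using h1
      refine ⟨Finset.univ.sup N, fun c hc χ hχ => ?_⟩
      have hle : N ⟨c, hc⟩ ≤ Finset.univ.sup N := Finset.le_sup (Finset.mem_univ _)
      obtain ⟨a, d, h1, h2, h3, h4⟩ := hN ⟨c, hc⟩ χ fun j hj hj' => hχ j hj (hj'.trans hle)
      exact ⟨a, d, h1, h2, h3.trans hle, h4⟩
    obtain ⟨N, hN⟩ := hN
    obtain ⟨W, hW⟩ := vdw κ (2 * N)
    refine ⟨W, fun χ hχ => ?_⟩
    obtain ⟨a, d, ha, hd, hb, hm⟩ := hW χ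
    by_cases hex : ∃ j, 0 < j ∧ j ≤ N ∧ χ (j * d) = χ a
    · obtain ⟨j, hj, hjN, hc⟩ := hex
      refine ⟨a, j * d, ha, by positivity, ?_, hm j (by omega), ?_, hc⟩
      · have : j * d ≤ N * d := Nat.mul_le_mul_right _ hjN
        nlinarith
      · have := hm (2 * j) (by omega)
        rwa [mul_assoc] at this
    · push Not at hex
      obtain ⟨a', d', h1, h2, h3, h4, h5, h6⟩ := hN (χ a) (hχ a ha (by omega)) (fun j => χ (j * d))
        (fun j hj hjN => Finset.mem_erase.2 ⟨hex j hj hjN, hχ _ (by positivity) (by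
          have : j * d ≤ N * d := Nat.mul_le_mul_right _ hjN
          nlinarith)⟩)
      refine ⟨a' * d, d' * d, by positivity, by positivity, ?_, ?_, ?_, h6⟩
      · have : (a' + 2 * d') * d ≤ N * d := Nat.mul_le_mul_right _ h3
        nlinarith
      · simpa only [add_mul] using h4
      · simpa only [add_mul, mul_assoc] using h5

/-- the set contains a Brauer configuration -/
def Good (A : Set ℕ) : Prop :=
  ∃ a d : ℕ, 0 < a ∧ 0 < d ∧ a ∈ A ∧ a + d ∈ A ∧ a + 2 * d ∈ A ∧ d ∈ A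

theorem exists_ultra : ∃ p : Ultrafilter ℕ, ∀ A ∈ p, Good A := by
  classical
  obtain ⟨p, hp⟩ := Ultrafilter.exists_ultrafilter_of_finite_inter_nonempty
    {B : Set ℕ | ¬ Good Bᶜ} (by
      intro T hT
      by_contra hne
      rw [Set.not_nonempty_iff_eq_empty] at hne
      have h1 : ∀ n : ℕ, ∃ B : T, n ∉ (B : Set ℕ) := by
        intro n
        by_contra hcon
        push Not at hcon
        have : n ∈ ⋂₀ (↑T : Set (Set ℕ)) := fun B hB => hcon ⟨B, hB⟩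
        rw [hne] at this
        exact this
      choose χ hχ using h1
      obtain ⟨N, hN⟩ := brauer_fin T (Finset.univ)
      obtain ⟨a, d, h1, h2, -, h4, h5, h6⟩ := hN χ (fun _ _ _ => Finset.mem_univ _)
      refine hT (χ a).2 ⟨a, d, h1, h2, hχ a, ?_, ?_, ?_⟩
      · rw [← h4]; exact hχ _
      · rw [← h5]; exact hχ _
      · rw [← h6]; exact hχ _)
  refine ⟨p, fun A hA => ?_⟩
  by_contra hg
  have : Aᶜ ∈ p := hp (show ¬ Good Aᶜᶜ by rwa [compl_compl])
  exact (Ultrafilter.compl_mem_iff_notMem.1 this) hA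

attribute [local instance] Ultrafilter.mul Ultrafilter.semigroup

theorem pos_mem {p : Ultrafilter ℕ} (hp : ∀ A ∈ p, Good A) : ∀ᶠ m in (p : Filter ℕ), 0 < m := by
  by_contra h
  have : {m : ℕ | 0 < m}ᶜ ∈ p := Ultrafilter.compl_mem_iff_notMem.2 h
  obtain ⟨a, d, h1, -, h2, -⟩ := hp _ this
  exact h2 h1

theorem exists_idem : ∃ p : Ultrafilter ℕ, (∀ A ∈ p, Good A) ∧ p * p = p := by
  have hcl : IsClosed {p : Ultrafilter ℕ | ∀ A ∈ p, Good A} := by
    have : {p : Ultrafilter ℕ | ∀ A ∈ p, Good A} =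
        ⋂ A ∈ {A : Set ℕ | ¬ Good A}, {p : Ultrafilter ℕ | Aᶜ ∈ p} := by
      ext p
      simp only [Set.mem_iInter, Set.mem_ofPred_eq, Ultrafilter.compl_mem_iff_notMem]
      exact ⟨fun h A hA hm => hA (h A hm), fun h A hm => by_contra fun hA => h A hA hm⟩
    rw [this]
    exact isClosed_biInter fun A _ => ultrafilter_isClosed_basic _
  obtain ⟨p, hp, hpp⟩ := exists_idempotent_in_compact_subsemigroup
    Ultrafilter.continuous_mul_left {p : Ultrafilter ℕ | ∀ A ∈ p, Good A} exists_ultra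
    hcl.isCompact (by
      intro U hU V hV A hA
      have h1 : ∀ᶠ m in (U : Filter ℕ), ∀ᶠ m' in (V : Filter ℕ), m * m' ∈ A :=
        (Ultrafilter.eventually_mul U V (· ∈ A)).1 hA
      obtain ⟨m, hm, hm'⟩ := ((pos_mem hU).and h1).exists
      obtain ⟨a, d, h1, h2, h3, h4, h5, h6⟩ := hV _ hm'
      refine ⟨m * a, m * d, by positivity, by positivity, h3, ?_, ?_, h6⟩
      · simpa only [Set.mem_ofPred_eq, mul_add] using h4
      · have : m * a + 2 * (m * d) = m * (a + 2 * d) := by ring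
        rw [this]; exact h5)
  exact ⟨p, hp, hpp⟩

theorem config (κ : Type) [Finite κ] (χ : ℕ → κ) : ∃ (c : κ) (w a d : ℕ), 0 < w ∧ 0 < a ∧ 0 < d ∧
    χ w = c ∧ χ (a + d) = c ∧ χ d = c ∧ χ (w * a) = c ∧ χ (w * d) = c ∧
    χ (w * (a + 2 * d)) = c := by
  obtain ⟨p, hp, hpp⟩ := exists_idem
  obtain ⟨c, hc⟩ : ∃ c, ∀ᶠ m in (p : Filter ℕ), χ m = c := by
    rw [← Ultrafilter.eventually_exists_iff]
    exact Eventually.of_forall fun m => ⟨χ m, rfl⟩
  have h1 : ∀ᶠ m in (p : Filter ℕ), ∀ᶠ m' in (p : Filter ℕ), χ (m * m') = c :=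
    (Ultrafilter.eventually_mul p p (fun m => χ m = c)).1 (by rwa [hpp])
  obtain ⟨w, hw, hwc, hw'⟩ := ((pos_mem hp).and (hc.and h1)).exists
  obtain ⟨a, d, h1, h2, h3, h4, h5, h6⟩ := hp _ (hc.and hw')
  exact ⟨c, w, a, d, hw, h1, h2, hwc, h4.1, h6.1, h3.2, h6.2, h5.2⟩

end Pool.Agent.H165Z.Brauer
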