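import Mathlib

/-! Folding the hyperbolic plane along the imaginary axis. -/

set_option autoImplicit false

namespace Pool.Agent.H165Z.Fold

open UpperHalfPlane Real

/-- the fold `x + i y ↦ |x| + i y` -/
def fold (z : ℍ) : ℍ := ⟨⟨|z.re|, z.im⟩, z.im_pos⟩

@[simp] theorem fold_re (z : ℍ) : (fold z).re = |z.re| := rfl
@[simp] theorem fold_im (z : ℍ) : (fold z).im = z.im := rfl

theorem dist_le_of_sq {z w z' w' : ℍ} (h1 : z'.im = z.im) (h2 : w'.im = w.im)
    (h : (z'.re - w'.re) ^ 2 ≤ (z.re - w.re) ^ 2) : dist z' w' ≤ dist z w := by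
  have hc : Real.cosh (dist z' w') ≤ Real.cosh (dist z w) := by
    rw [cosh_dist', cosh_dist', h1, h2]
    have := z.im_pos
    have := w.im_pos
    gcongr
  rw [Real.cosh_le_cosh, abs_of_nonneg dist_nonneg, abs_of_nonneg dist_nonneg] at hc
  exact hc

theorem fold_lip (z w : ℍ) : dist (fold z) (fold w) ≤ dist z w := by
  refine dist_le_of_sq rfl rfl ?_
  simp only [fold_re]
  have := abs_abs_sub_abs_le_abs_sub z.re w.re
  rw [← sq_abs (|z.re| - |w.re|), ← sq_abs (z.re - w.re)]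
  gcongr

theorem fold_of_nonneg {z : ℍ} (h : 0 ≤ z.re) : fold z = z := by
  apply UpperHalfPlane.ext
  apply Complex.ext
  · exact abs_of_nonneg h
  · rfl

theorem fold_fold (z : ℍ) : fold (fold z) = fold z := fold_of_nonneg (by simp)

theorem dist_fold_neg {z w : ℍ} (hz : z.re ≤ 0) (hw : w.re ≤ 0) :
    dist z w ≤ dist (fold z) (fold w) := by
  refine dist_le_of_sq rfl rfl ?_
  simp only [fold_re, abs_of_nonpos hz, abs_of_nonpos hw]
  nlinarith

/-- distance from a point to its fold -/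
noncomputable def ht (z : ℍ) : ℝ := dist z (fold z)

theorem ht_lip (z w : ℍ) : |ht z - ht w| ≤ 2 * dist z w := by
  unfold ht
  have h1 := dist_triangle4 z w (fold w) (fold z)
  have h2 := dist_triangle4 w z (fold z) (fold w)
  have h3 := fold_lip z w
  have h4 := fold_lip w z
  rw [dist_comm w z] at h2 h4
  rw [abs_le]
  constructor <;> linarith

theorem lower (z w : ℍ) : dist z w ≤ dist (fold z) (fold w) + |ht z - ht w| := by
  rcases le_total 0 z.re with hz | hz <;> rcases le_total 0 w.re with hw | hw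
  · rw [fold_of_nonneg hz, fold_of_nonneg hw]
    linarith [abs_nonneg (ht z - ht w)]
  · have h0 : ht z = 0 := by simp [ht, fold_of_nonneg hz]
    have h1 := dist_triangle z (fold w) w
    rw [h0, zero_sub, abs_neg, fold_of_nonneg hz]
    have : dist (fold w) w ≤ |ht w| := by rw [dist_comm]; exact le_abs_self _
    linarith
  · have h0 : ht w = 0 := by simp [ht, fold_of_nonneg hw]
    have h1 := dist_triangle z (fold z) w
    rw [h0, sub_zero, fold_of_nonneg hw]
    have : dist z (fold z) ≤ |ht z| := le_abs_self _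
    linarith
  · linarith [dist_fold_neg hz hw, abs_nonneg (ht z - ht w)]

theorem far (R : ℝ) : ∃ p : ℍ, ∀ w : ℍ, R ≤ dist p (fold w) := by
  let t : ℝ := Real.sinh |R|
  have ht0 : 0 ≤ t := Real.sinh_nonneg_iff.2 (abs_nonneg R)
  let p : ℍ := ⟨⟨-t, 1⟩, by simp⟩
  have hre : p.re = -t := rfl
  have him : p.im = 1 := rfl
  have hp : dist p (fold p) = 2 * |R| := by
    have hc : Real.cosh (dist p (fold p)) = Real.cosh (2 * |R|) := by
      rw [cosh_dist', fold_re, fold_im, hre, him, abs_neg, abs_of_nonneg ht0, Real.cosh_two_mul,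
        Real.cosh_sq]
      simp only [t]
      ring
    have h1 := (Real.cosh_le_cosh.1 hc.le)
    have h2 := (Real.cosh_le_cosh.1 hc.ge)
    rw [abs_of_nonneg dist_nonneg, abs_of_nonneg (by positivity : (0 : ℝ) ≤ 2 * |R|)] at h1 h2
    linarith
  refine ⟨p, fun w => ?_⟩
  have h1 := dist_triangle p (fold w) (fold p)
  have h2 := fold_lip (fold w) p
  rw [fold_fold, dist_comm (fold w) p] at h2
  linarith [le_abs_self R]

theorem dist_L2 {α β : Type*} [PseudoMetricSpace α] [PseudoMetricSpace β]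
    (x y : WithLp 2 (α × β)) : dist x y ≤ dist x.fst y.fst + dist x.snd y.snd := by
  rw [WithLp.prod_dist_eq_add (by norm_num)]
  have h1 : (0 : ℝ) ≤ dist x.fst y.fst := dist_nonneg
  have h2 : (0 : ℝ) ≤ dist x.snd y.snd := dist_nonneg
  have e : (2 : ENNReal).toReal = 2 := by norm_num
  rw [e, ← Real.sqrt_eq_rpow, Real.rpow_two, Real.rpow_two]
  rw [Real.sqrt_le_left (by positivity)]
  nlinarith [mul_nonneg h1 h2]

theorem main (Y : Type*) [MetricSpace Y] [Nonempty Y] :
    ∃ f : WithLp 2 (ℍ × Y) → WithLp 2 (WithLp 2 (ℍ × Y) × ℝ),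
      (∃ L C : ℝ, 1 ≤ L ∧ 0 ≤ C ∧ ∀ a a' : WithLp 2 (ℍ × Y),
        L⁻¹ * dist a a' - C ≤ dist (f a) (f a') ∧ dist (f a) (f a') ≤ L * dist a a' + C) ∧
      ∀ h : WithLp 2 (ℍ × Y) → ℝ,
        Metric.hausdorffEDist (Set.range f)
          (Set.range fun x : WithLp 2 (ℍ × Y) => WithLp.toLp 2 (x, h x)) = ⊤ := by
  let f : WithLp 2 (ℍ × Y) → WithLp 2 (WithLp 2 (ℍ × Y) × ℝ) := fun a =>
    WithLp.toLp 2 (WithLp.toLp 2 (fold a.fst, a.snd), ht a.fst)
  refine ⟨f, ⟨4, 0, by norm_num, le_rfl, fun a a' => ?_⟩, fun h => ?_⟩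
  · have u1 := dist_L2 (f a) (f a')
    have u2 := dist_L2 (f a).fst (f a').fst
    have u3 := dist_L2 a a'
    have l1 := WithLp.dist_fst_le (f a) (f a')
    have l2 := WithLp.dist_snd_le (f a) (f a')
    have l3 := WithLp.dist_fst_le (f a).fst (f a').fst
    have l4 := WithLp.dist_snd_le (f a).fst (f a').fst
    have l5 := WithLp.dist_fst_le a a'
    have l6 := WithLp.dist_snd_le a a'
    have e1 : dist (f a).snd (f a').snd = |ht a.fst - ht a'.fst| := Real.dist_eq _ _
    have e2 : dist (f a).fst.fst (f a').fst.fst = dist (fold a.fst) (fold a'.fst) := rfl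
    have e3 : dist (f a).fst.snd (f a').fst.snd = dist a.snd a'.snd := rfl
    have k1 := fold_lip a.fst a'.fst
    have k2 := ht_lip a.fst a'.fst
    have k3 := lower a.fst a'.fst
    have : (0 : ℝ) ≤ dist (f a) (f a') := dist_nonneg
    rw [e1] at u1 l2
    rw [e2] at l3
    rw [e3] at l4
    rw [e2, e3] at u2
    constructor <;> linarith
  · by_contra hne
    obtain ⟨r, hr⟩ : ∃ r : NNReal, Metric.hausdorffEDist
        (Set.range fun x : WithLp 2 (ℍ × Y) => WithLp.toLp 2 (x, h x)) (Set.range f) < r := by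
      rw [Metric.hausdorffEDist_comm]
      obtain ⟨r, hr, -⟩ := ENNReal.lt_iff_exists_nnreal_btwn.1 (lt_top_iff_ne_top.2 hne)
      exact ⟨r, hr⟩
    obtain ⟨p, hp⟩ := far r
    obtain ⟨y⟩ := ‹Nonempty Y›
    let x : WithLp 2 (ℍ × Y) := WithLp.toLp 2 (p, y)
    obtain ⟨_, ⟨a, rfl⟩, ha⟩ := Metric.exists_edist_lt_of_hausdorffEDist_lt
      (x := WithLp.toLp 2 (x, h x)) (Set.mem_range_self x) hr
    rw [edist_lt_coe] at ha
    have ha' : dist (WithLp.toLp 2 (x, h x)) (f a) < r := ha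
    have l1 := WithLp.dist_fst_le (WithLp.toLp 2 (x, h x)) (f a)
    have l3 := WithLp.dist_fst_le (WithLp.toLp 2 (x, h x)).fst (f a).fst
    have e : dist (WithLp.toLp 2 (x, h x)).fst.fst (f a).fst.fst = dist p (fold a.fst) := rfl
    have := hp a.fst
    linarith

end Pool.Agent.H165Z.Fold
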